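import Pool.Agent.X83.DA.Stm

set_option autoImplicit false

namespace Pool.Agent.X104.DA.SYM

open MeasureTheory Set Filter Topology RealInnerProductSpace Pool.Agent.X83.DA

theorem weak {H : Type*} [NormedAddCommGroup H] [InnerProductSpace ℝ H] [CompleteSpace H]
    {D : Submodule ℝ H} {A : D →ₗ[ℝ] H} {b c : ℝ} {P G : ℝ → H →L[ℝ] H}
    (hS : SA D A b) (hF : Fam D A c P G) (y w : D) (s : ℝ) :
    ⟪A y, G s (w : H)⟫ = ⟪(y : H), G s (A w)⟫ := by
  have h1 : HasDerivAt (fun s => ⟪A y, P s (w : H)⟫) ⟪A y, G s (w : H)⟫ s := by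
    have := (hasDerivAt_const s (A y)).inner ℝ (hF.dP (w : H) s)
    simpa using this
  have h2 : HasDerivAt (fun s => ⟪(y : H), P s (A w)⟫) ⟪(y : H), G s (A w)⟫ s := by
    have := (hasDerivAt_const s (y : H)).inner ℝ (hF.dP (A w) s)
    simpa using this
  have h3 : (fun s => ⟪A y, P s (w : H)⟫) = fun s => ⟪(y : H), P s (A w)⟫ := by
    funext s
    obtain ⟨h, hh⟩ := hF.comP s w
    have := hS.sym y ⟨P s (w : H), h⟩
    rw [hh] at this
    exact this
  rw [h3] at h1
  exact h1.unique h2

theorem t (H : Type*) [NormedAddCommGroup H] [InnerProductSpace ℝ H] [CompleteSpace H] :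
    S_SYM H := by
  intro D A b c P G hS hF t
  have core : ∀ v w : D, ⟪G t (v : H), (w : H)⟫ = ⟪(v : H), G t (w : H)⟫ := by
    intro v w
    set F : ℝ → ℝ := fun r => ⟪G r (v : H), G (t - r) (w : H)⟫ - ⟪P r (v : H), P (t - r) (A w)⟫
      with hFd
    have hd : ∀ r, HasDerivAt F 0 r := by
      intro r
      have a1 := hF.dG r v
      have a2 : HasDerivAt (fun r => G (t - r) (w : H))
          (-(-(c • G (t - r) (w : H)) - P (t - r) (A w))) r :=
        HasDerivAt.comp_const_sub t r (hF.dG (t - r) w)
      have a3 := hF.dP (v : H) r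
      have a4 : HasDerivAt (fun r => P (t - r) (A w)) (-(G (t - r) (A w))) r :=
        HasDerivAt.comp_const_sub t r (hF.dP (A w) (t - r))
      have h := (a1.inner ℝ a2).sub (a3.inner ℝ a4)
      refine h.congr_deriv ?_
      obtain ⟨hm, hh⟩ := hF.comP r v
      have hw := weak hS hF ⟨P r (v : H), hm⟩ w (t - r)
      rw [hh] at hw
      simp only [inner_sub_left, inner_sub_right, inner_neg_left, inner_neg_right, inner_smul_left,
        inner_smul_right, hw, RCLike.conj_to_real]
      simp only [neg_sub, inner_sub_right, inner_neg_right, inner_smul_right]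
      ring
    have hc := is_const_of_deriv_eq_zero (fun r => (hd r).differentiableAt)
      (fun r => (hd r).deriv) t 0
    simp only [hFd, sub_self, sub_zero, hF.P0, hF.G0] at hc
    simpa using hc
  have s1 : ∀ (w : D) (v : H), ⟪G t v, (w : H)⟫ = ⟪v, G t (w : H)⟫ := by
    intro w
    have hcl : Continuous fun v : H => ⟪G t v, (w : H)⟫ := ((G t).continuous).inner continuous_const
    have hcr : Continuous fun v : H => ⟪v, G t (w : H)⟫ := continuous_id.inner continuous_const
    have := hcl.ext_on hS.dense hcr (fun v hv => core ⟨v, hv⟩ w)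
    exact fun v => congrFun this v
  intro v w
  have hcl : Continuous fun w : H => ⟪G t v, w⟫ := continuous_const.inner continuous_id
  have hcr : Continuous fun w : H => ⟪v, G t w⟫ := continuous_const.inner ((G t).continuous)
  have := hcl.ext_on hS.dense hcr (fun w hw => s1 ⟨w, hw⟩ v)
  exact congrFun this w

end Pool.Agent.X104.DA.SYM
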